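import Pool.Agent.Helper52.KP.StM

/-!
# Project KP, MODULE MOM (moments)
-/

set_option autoImplicit false

namespace Pool.Agent.Helper92.KP

open MeasureTheory Filter Pool.Agent.Helper52.KP
open scoped ContDiff ComplexOrder Topology

theorem continuous_ev {m : ℕ} (P : MvPolynomial (Fin m) ℂ) : Continuous (fun z => ev P z) :=
  MvPolynomial.continuous_eval P

theorem isOpen_U (C : Cone) : IsOpen C.U :=
  isOpen_ne_fun (continuous_ev C.Δ) continuous_const

theorem measU (C : Cone) : MeasurableSet C.U := (isOpen_U C).measurableSet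

theorem u_pos {C : Cone} (hC : Good C) {z : Fin C.m → ℂ} (hz : z ∈ C.U) : 0 < C.u z := by
  obtain ⟨a, b, ha, hab⟩ := hC.ubd
  exact lt_of_lt_of_le (mul_pos ha (hC.Xpos z hz)) (hab z hz).1

theorem m_two {C : Cone} (hC : Good C) : 2 ≤ C.m := by
  have := hC.hm
  have := hC.hn
  omega

theorem cont_u {C : Cone} (hC : Good C) : ContinuousOn C.u C.U := hC.usm.continuousOn

/-- a measurable extension of `u` -/
theorem exists_uu {C : Cone} (hC : Good C) :
    ∃ ψ : (Fin C.m → ℂ) → ℝ, Measurable ψ ∧ ∀ z ∈ C.U, ψ z = C.u z := by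
  classical
  refine ⟨C.U.piecewise C.u (fun _ => (1 : ℝ)), ?_, ?_⟩
  · exact ContinuousOn.measurable_piecewise (cont_u hC) continuousOn_const (measU C)
  · intro z hz
    exact Set.piecewise_eq_of_mem _ _ _ hz

/-- the key formula -/
theorem key {C : Cone} (hC : Good C) (hSCA : StSCA) (hVOL : StVOL) (Φ : ℝ → ENNReal)
    (hΦ : Measurable Φ) :
    ∫⁻ z in C.U, Φ (C.u z) ∂C.nu =
      (∫⁻ s in Set.Ioi (0 : ℝ), Φ s * ENNReal.ofReal (C.m * s ^ ((C.m : ℝ) - 1))) *
        ENNReal.ofReal (C.rd * (Real.pi / 2) ^ C.m / C.m.factorial) := by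
  obtain ⟨ψ, hψm, hψ⟩ := exists_uu hC
  have hset : {z | z ∈ C.U ∧ ψ z < 1} = {z | z ∈ C.U ∧ C.u z < 1} := by
    ext z
    simp only [Set.mem_setOf_eq]
    constructor
    · rintro ⟨h1, h2⟩
      exact ⟨h1, by rw [← hψ z h1]; exact h2⟩
    · rintro ⟨h1, h2⟩
      exact ⟨h1, by rw [hψ z h1]; exact h2⟩
  have hvol : ∫⁻ _z in {z | z ∈ C.U ∧ ψ z < 1}, (1 : ENNReal) ∂C.nu =
      ENNReal.ofReal (C.rd * (Real.pi / 2) ^ C.m / C.m.factorial) := by
    rw [setLIntegral_one, hset, hVOL C hC]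
  have h := hSCA C hC 1 0 one_pos (by
      have := m_two hC
      have h2 : (2 : ℝ) ≤ C.m := by exact_mod_cast this
      linarith) ψ (fun _ => 1) hψm measurable_const (by
      intro z hz
      refine ⟨by rw [hψ z hz]; exact u_pos hC hz, ?_⟩
      intro c hc
      refine ⟨?_, ?_⟩
      · rw [hψ z hz, hψ _ (hC.sclU c hc z hz), hC.uhom z hz c hc, Real.rpow_one]
      · simp) (by rw [hvol]; exact ENNReal.ofReal_ne_top) Φ hΦ
  rw [hvol] at h
  have h1 : ∫⁻ z in C.U, Φ (C.u z) ∂C.nu = ∫⁻ z in C.U, Φ (ψ z) * 1 ∂C.nu := by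
    apply setLIntegral_congr_fun (measU C)
    intro z hz
    simp only [mul_one]
    rw [hψ z hz]
  rw [h1, h]
  congr 1
  apply setLIntegral_congr_fun measurableSet_Ioi
  intro s hs
  simp only
  congr 2
  rw [add_zero, div_one]

/-- integrals over the density -/
theorem lint_nu {C : Cone} (Φ : (Fin C.m → ℂ) → ℝ) (hΦ : ∀ z ∈ C.U, 0 ≤ Φ z) (hΦc : ContinuousOn Φ C.U) :
    ∫⁻ z in C.U, ENNReal.ofReal (Φ z) ∂C.nu =
      ∫⁻ z in C.U, ENNReal.ofReal (Φ z * ‖ev C.J z‖ ^ 2) := by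
  unfold Cone.nu
  have hJm : Measurable (fun z : Fin C.m → ℂ => ENNReal.ofReal (‖ev C.J z‖ ^ 2)) :=
    (((continuous_ev C.J).norm.pow 2).measurable).ennreal_ofReal
  rw [restrict_withDensity (measU C)]
  rw [lintegral_withDensity_eq_lintegral_mul₀ hJm.aemeasurable]
  · apply setLIntegral_congr_fun (measU C)
    intro z hz
    simp only [Pi.mul_apply]
    rw [mul_comm, ← ENNReal.ofReal_mul (hΦ z hz)]
  · exact (hΦc.aemeasurable (measU C)).ennreal_ofReal

/-- the one-dimensional integral -/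
theorem one_dim (m : ℕ) (hm : 2 ≤ m) (p : ℝ) (hp : -1 ≤ p) :
    ∫⁻ s in Set.Ioi (0 : ℝ), ENNReal.ofReal (s ^ p * Real.exp (-s)) *
      ENNReal.ofReal (m * s ^ ((m : ℝ) - 1)) = ENNReal.ofReal (m * Real.Gamma (p + m)) := by
  have hm2 : (2 : ℝ) ≤ m := by exact_mod_cast hm
  have hpos : 0 < p + m := by linarith
  rw [Real.Gamma_eq_integral hpos, ← integral_const_mul, ofReal_integral_eq_lintegral_ofReal]
  · apply setLIntegral_congr_fun measurableSet_Ioi
    intro s hs
    have hs' : (0 : ℝ) < s := hs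
    simp only
    rw [← ENNReal.ofReal_mul (by positivity)]
    congr 1
    have : s ^ (p + (m : ℝ) - 1) = s ^ p * s ^ ((m : ℝ) - 1) := by
      rw [← Real.rpow_add hs']
      congr 1
      ring
    rw [this]
    ring
  · exact (Real.GammaIntegral_convergent hpos).const_mul _
  · refine (ae_restrict_iff' measurableSet_Ioi).2 (Eventually.of_forall ?_)
    intro s hs
    have hs' : (0 : ℝ) < s := hs
    simp only [Pi.zero_apply]
    positivity

/-- all moments -/
theorem moment {C : Cone} (hC : Good C) (hSCA : StSCA) (hVOL : StVOL) (p : ℝ) (hp : -1 ≤ p) :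
    IntegrableOn (fun z => C.u z ^ p * Real.exp (-C.u z) * ‖ev C.J z‖ ^ 2) C.U ∧
    ∫ z in C.U, C.u z ^ p * Real.exp (-C.u z) * ‖ev C.J z‖ ^ 2 =
      C.m * Real.Gamma (p + C.m) * (C.rd * (Real.pi / 2) ^ C.m / C.m.factorial) := by
  have hcont1 : ContinuousOn (fun z => C.u z ^ p * Real.exp (-C.u z)) C.U := by
    apply ContinuousOn.mul
    · exact (cont_u hC).rpow_const (fun z hz => Or.inl (u_pos hC hz).ne')
    · exact Real.continuous_exp.comp_continuousOn (cont_u hC).neg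
  have hcont : ContinuousOn (fun z => C.u z ^ p * Real.exp (-C.u z) * ‖ev C.J z‖ ^ 2) C.U :=
    hcont1.mul ((continuous_ev C.J).norm.pow 2).continuousOn
  have hnn : ∀ z ∈ C.U, 0 ≤ C.u z ^ p * Real.exp (-C.u z) := by
    intro z hz
    have := u_pos hC hz
    positivity
  have hm2 : (2 : ℝ) ≤ C.m := by exact_mod_cast (m_two hC)
  have hG : 0 < Real.Gamma (p + C.m) := Real.Gamma_pos_of_pos (by linarith)
  have hlin : ∫⁻ z in C.U, ENNReal.ofReal (C.u z ^ p * Real.exp (-C.u z) * ‖ev C.J z‖ ^ 2) =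
      ENNReal.ofReal (C.m * Real.Gamma (p + C.m) * (C.rd * (Real.pi / 2) ^ C.m / C.m.factorial)) := by
    rw [← lint_nu (fun z => C.u z ^ p * Real.exp (-C.u z)) hnn hcont1]
    rw [key hC hSCA hVOL (fun s => ENNReal.ofReal (s ^ p * Real.exp (-s)))
      (by fun_prop), one_dim C.m (m_two hC) p hp,
      ← ENNReal.ofReal_mul (by positivity)]
  have hmeas : AEStronglyMeasurable
      (fun z => C.u z ^ p * Real.exp (-C.u z) * ‖ev C.J z‖ ^ 2) (volume.restrict C.U) :=
    hcont.aestronglyMeasurable (measU C)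
  have hae : 0 ≤ᵐ[volume.restrict C.U]
      (fun z => C.u z ^ p * Real.exp (-C.u z) * ‖ev C.J z‖ ^ 2) := by
    refine (ae_restrict_iff' (measU C)).2 (Eventually.of_forall ?_)
    intro z hz
    have := hnn z hz
    simp only [Pi.zero_apply]
    positivity
  refine ⟨⟨hmeas, ?_⟩, ?_⟩
  · rw [hasFiniteIntegral_iff_ofReal hae, hlin]
    exact ENNReal.ofReal_lt_top
  · rw [integral_eq_lintegral_of_nonneg_ae hae hmeas, hlin, ENNReal.toReal_ofReal]
    positivity

theorem hMOM (hSCA : StSCA) (hVOL : StVOL) : StMOM := by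
  intro C hC
  have hm := m_two hC
  have hq : ∀ q : ℕ, IntegrableOn (fun z => C.u z ^ q * Real.exp (-C.u z) * ‖ev C.J z‖ ^ 2) C.U ∧
      ∫ z in C.U, C.u z ^ q * Real.exp (-C.u z) * ‖ev C.J z‖ ^ 2 =
      C.m * (q + C.m - 1).factorial * (C.rd * (Real.pi / 2) ^ C.m / C.m.factorial) := by
    intro q
    have h := moment hC hSCA hVOL (q : ℝ) (by
      have : (0 : ℝ) ≤ q := Nat.cast_nonneg q
      linarith)
    simp only [Real.rpow_natCast] at h
    refine ⟨h.1, ?_⟩
    rw [h.2]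
    congr 2
    have h1 : ((q : ℝ) + C.m) = ((q + C.m - 1 : ℕ) : ℝ) + 1 := by
      have : q + C.m = (q + C.m - 1) + 1 := by omega
      exact_mod_cast this
    rw [h1, Real.Gamma_nat_eq_factorial]
  have hsz : ∀ q : ℕ, IntegrableOn (fun z => C.sz z ^ q * Real.exp (-C.u z) * ‖ev C.J z‖ ^ 2) C.U := by
    intro q
    obtain ⟨a, b, ha, hab⟩ := hC.ubd
    have hszc : Continuous C.sz := by
      unfold Cone.sz
      exact continuous_finsetSum _ (fun i _ => (continuous_ev (C.X i)).norm)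
    have hcont : ContinuousOn (fun z => C.sz z ^ q * Real.exp (-C.u z) * ‖ev C.J z‖ ^ 2) C.U :=
      (((hszc.pow q).continuousOn).mul (Real.continuous_exp.comp_continuousOn (cont_u hC).neg)).mul
        ((continuous_ev C.J).norm.pow 2).continuousOn
    refine Integrable.mono' (((hq q).1).const_mul (a⁻¹ ^ q)) (hcont.aestronglyMeasurable (measU C)) ?_
    refine (ae_restrict_iff' (measU C)).2 (Eventually.of_forall ?_)
    intro z hz
    have hszn : 0 < C.sz z := hC.Xpos z hz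
    have h1 : C.sz z ≤ a⁻¹ * C.u z := by
      have := (hab z hz).1
      rw [inv_mul_eq_div, le_div_iff₀ ha]
      linarith
    have h2 : C.sz z ^ q ≤ (a⁻¹ * C.u z) ^ q := pow_le_pow_left₀ hszn.le h1 q
    rw [Real.norm_of_nonneg (by positivity)]
    have h3 : C.sz z ^ q * Real.exp (-C.u z) * ‖ev C.J z‖ ^ 2 ≤
        (a⁻¹ * C.u z) ^ q * Real.exp (-C.u z) * ‖ev C.J z‖ ^ 2 := by gcongr
    refine h3.trans (le_of_eq ?_)
    rw [mul_pow]
    ring
  refine ⟨hq, ?_, hsz, ?_⟩
  · have h := (moment hC hSCA hVOL (-1) le_rfl).1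
    simp only [Real.rpow_neg_one] at h
    exact h
  · intro k s hs
    obtain ⟨B, hB⟩ := hC.bdd k s hs
    have hcontsJ : Continuous (fun z => ev s z * ev C.J z) :=
      (continuous_ev s).mul (continuous_ev C.J)
    refine ⟨hcontsJ.aestronglyMeasurable, ?_⟩
    have hcont : ContinuousOn (fun z => ‖ev s z * ev C.J z‖ ^ 2 * Real.exp (-C.u z)) C.U :=
      ((hcontsJ.norm.pow 2).continuousOn).mul
        (Real.continuous_exp.comp_continuousOn (cont_u hC).neg)
    refine Integrable.mono' (((hsz (2 * k))).const_mul (B ^ 2)) (hcont.aestronglyMeasurable (measU C)) ?_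
    refine (ae_restrict_iff' (measU C)).2 (Eventually.of_forall ?_)
    intro z hz
    rw [Real.norm_of_nonneg (by positivity), norm_mul, mul_pow]
    have h1 : ‖ev s z‖ ^ 2 ≤ (B * C.sz z ^ k) ^ 2 := pow_le_pow_left₀ (norm_nonneg _) (hB z) 2
    have h2 : ‖ev s z‖ ^ 2 * ‖ev C.J z‖ ^ 2 * Real.exp (-C.u z) ≤
        (B * C.sz z ^ k) ^ 2 * ‖ev C.J z‖ ^ 2 * Real.exp (-C.u z) := by gcongr
    refine h2.trans (le_of_eq ?_)
    rw [mul_pow, ← pow_mul, mul_comm k 2]
    ring

end Pool.Agent.Helper92.KP
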