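import Pool.Agent.Helper92.KP.RigA

/-!
# Project KP, MODULE RIG (rigidity)
-/

set_option autoImplicit false

set_option linter.unusedSectionVars false

namespace Pool.Agent.Helper92.KP

open Pool.Agent.Helper52.KP Pool.Agent.Helper68.KP Filter Topology

section

variable {A : Type} [CommRing A] [IsDomain A] [Algebra ℂ A]
variable {E : ℕ → Submodule ℂ A} {M Λ : ℕ} {F : ℕ → ℕ → Submodule ℂ A}

/-- the graded pieces inside the algebra -/
noncomputable def VB (F : ℕ → ℕ → Submodule ℂ A) (k : ℕ) : Submodule ℂ (BB F) :=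
  Submodule.comap (BB F).val.toLinearMap (VV F k)

theorem mem_VB {k : ℕ} {b : BB F} : b ∈ VB F k ↔ (b : Polynomial A) ∈ VV F k := Iff.rfl

theorem map_VB (k : ℕ) : Submodule.map (BB F).val.toLinearMap (VB F k) = VV F k := by
  unfold VB
  rw [Submodule.map_comap_eq_self]
  intro p hp
  exact ⟨⟨p, VV_le_BB k hp⟩, rfl⟩

theorem val_inj : Function.Injective (BB F).val.toLinearMap := Subtype.val_injective

theorem finrank_VB (k : ℕ) : Module.finrank ℂ (VB F k) = Module.finrank ℂ (VV F k) := by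
  rw [← map_VB (F := F) k]
  exact (Submodule.equivMapOfInjective _ val_inj (VB F k)).finrank_eq

theorem fd_VB (hE : SG E M) (hF : FF E Λ F) (k : ℕ) : FiniteDimensional ℂ (VB F k) := by
  have h := (finrank_VV hE hF k).1
  rw [← map_VB (F := F) k] at h
  exact (Submodule.equivMapOfInjective _ val_inj (VB F k)).symm.finiteDimensional

theorem VB_zero (hE : SG E M) (hF : FF E Λ F) : VB F 0 = Submodule.span ℂ {1} := by
  apply Submodule.map_injective_of_injective (val_inj (F := F))
  rw [map_VB, VV_zero hE hF, Submodule.map_span, Set.image_singleton]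
  rfl

theorem VB_mul (hF : FF E Λ F) {k k' : ℕ} {p q : BB F} (hp : p ∈ VB F k)
    (hq : q ∈ VB F k') : p * q ∈ VB F (k + k') := VV_mul hF hp hq

theorem VB_gen (hE : SG E M) (hF : FF E Λ F)
    (hgen : ∀ k l, 0 < k → F (k + 1) l = Submodule.span ℂ
      {b | ∃ i j f f', i + j = l ∧ f ∈ F k i ∧ f' ∈ F 1 j ∧ b = f * f'}) (k : ℕ) :
    VB F (k + 1) = Submodule.span ℂ
      {b | ∃ p q, p ∈ VB F k ∧ q ∈ VB F 1 ∧ b = p * q} := by
  apply Submodule.map_injective_of_injective (val_inj (F := F))
  rw [map_VB, VV_gen hE hF hgen, Submodule.map_span]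
  congr 1
  ext b
  constructor
  · rintro ⟨p, q, hp, hq, rfl⟩
    exact ⟨⟨p, VV_le_BB k hp⟩ * ⟨q, VV_le_BB 1 hq⟩, ⟨_, _, hp, hq, rfl⟩, rfl⟩
  · rintro ⟨_, ⟨p, q, hp, hq, rfl⟩, rfl⟩
    exact ⟨_, _, hp, hq, rfl⟩

theorem VB_indep (hF : FF E Λ F) (hI : iSupIndep E) : iSupIndep (VB F) := by
  refine indep_of (fun l => (co l) ∘ₗ (BB F).val.toLinearMap) ?_ hI (VB F) ?_
  · intro x hx
    apply Subtype.ext
    apply Polynomial.ext
    intro l
    exact hx l
  · intro k l b hb
    exact FF.le hF k l (hb l)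

theorem VB_top (hE : SG E M) (hF : FF E Λ F) : (⨆ k, VB F k) = ⊤ := by
  apply Submodule.map_injective_of_injective (val_inj (F := F))
  rw [Submodule.map_iSup]
  simp only [map_VB]
  rw [← BB_eq hE hF, Submodule.map_top]
  ext p
  constructor
  · intro hp
    exact ⟨⟨p, hp⟩, rfl⟩
  · rintro ⟨b, rfl⟩
    exact b.2

/-- the algebra is finitely generated -/
theorem BB_ft (hE : SG E M) (hF : FF E Λ F)
    (hgen : ∀ k l, 0 < k → F (k + 1) l = Submodule.span ℂ
      {b | ∃ i j f f', i + j = l ∧ f ∈ F k i ∧ f' ∈ F 1 j ∧ b = f * f'}) :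
    Algebra.FiniteType ℂ (BB F) := by
  have h1 := fd_VB hE hF 1
  obtain ⟨S, hS⟩ := (Submodule.fg_iff_finiteDimensional (VB F 1)).2 h1
  refine ⟨⟨S, ?_⟩⟩
  have hV : ∀ k, VB F k ≤ (Algebra.adjoin ℂ (S : Set (BB F))).toSubmodule := by
    have h1' : VB F 1 ≤ (Algebra.adjoin ℂ (S : Set (BB F))).toSubmodule := by
      rw [← hS, Submodule.span_le]
      exact Algebra.subset_adjoin
    intro k
    induction k with
    | zero =>
      rw [VB_zero hE hF, Submodule.span_le, Set.singleton_subset_iff]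
      exact one_mem (Algebra.adjoin ℂ (S : Set (BB F)))
    | succ k ih =>
      rw [VB_gen hE hF hgen, Submodule.span_le]
      rintro _ ⟨p, q, hp, hq, rfl⟩
      exact (Algebra.adjoin ℂ (S : Set (BB F))).mul_mem (ih hp) (h1' hq)
  rw [← Algebra.toSubmodule_eq_top, eq_top_iff, ← VB_top hE hF]
  exact iSup_le hV

end

theorem hRIG (hGNN : StGNN) (hRGA : StRGA) : StRIG := by
  intro A _ _ _ E M Λ F hE hF hI hgen hic Λ' G hG hFG k₀ l₀ f hf hf'
  classical
  -- `k₀ > 0`
  have hk₀ : 0 < k₀ := by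
    rcases Nat.eq_zero_or_pos k₀ with h | h
    · exfalso
      subst h
      rcases Nat.eq_zero_or_pos l₀ with h | h
      · subst h
        rw [hG.zero, ← hF.zero] at hf
        exact hf' hf
      · rw [hG.bot 0 l₀ (by simpa using h)] at hf
        rw [(Submodule.mem_bot ℂ).1 hf] at hf'
        exact hf' (zero_mem _)
    · exact h
  -- Noether normalization
  obtain ⟨a, ha1, ha2, ha3⟩ := hGNN (BB F) (VB F) (M + 1) (fd_VB hE hF) (VB_zero hE hF)
    (VB_gen hE hF hgen) (VB_indep hF hI) (VB_top hE hF) (by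
      obtain ⟨c, C, hc, h⟩ := growth hE hF
      refine ⟨c, C, hc, ?_⟩
      filter_upwards [h] with k hk
      rw [finrank_VB]
      exact hk)
  -- the field
  let K := FractionRing (Polynomial A)
  let ι : Polynomial A →ₐ[ℂ] K := IsScalarTower.toAlgHom ℂ (Polynomial A) K
  have hι : Function.Injective ι := IsFractionRing.injective (Polynomial A) K
  let L : IntermediateField ℂ K := IntermediateField.adjoin ℂ (ι '' (BB F : Set (Polynomial A)))
  have hadj : Algebra.adjoin ℂ (ι '' (BB F : Set (Polynomial A))) = (BB F).map ι := by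
    rw [← Algebra.adjoin_eq ((BB F).map ι)]
    rfl
  have hLdiv : ∀ y : K, y ∈ L ↔ ∃ u v : BB F, (v : Polynomial A) ≠ 0 ∧ y = ι u / ι v := by
    intro y
    rw [IntermediateField.mem_adjoin_iff_div, hadj]
    constructor
    · rintro ⟨r, ⟨u, hu, rfl⟩, s, ⟨v, hv, rfl⟩, rfl⟩
      rcases eq_or_ne v 0 with h | h
      · refine ⟨0, 1, ?_, ?_⟩
        · simp
        · subst h
          simp
      · exact ⟨⟨u, hu⟩, ⟨v, hv⟩, h, rfl⟩
    · rintro ⟨u, v, -, rfl⟩
      exact ⟨_, ⟨u, u.2, rfl⟩, _, ⟨v, v.2, rfl⟩, rfl⟩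
  have hBL : ∀ b : BB F, ι b ∈ L := fun b =>
    IntermediateField.subset_adjoin ℂ _ ⟨b, b.2, rfl⟩
  let e : BB F →ₐ[ℂ] L :=
    (ι.comp (BB F).val).codRestrict L.toSubalgebra hBL
  have hecoe : ∀ b : BB F, ((e b : L) : K) = ι b := fun b => rfl
  have he : Function.Injective e := by
    intro b b' h
    apply Subtype.ext
    apply hι
    rw [← hecoe, ← hecoe, h]
  -- `E 1` is not zero
  obtain ⟨g, hg1, hg0⟩ : ∃ g : A, g ∈ E 1 ∧ g ≠ 0 := by
    by_contra hcon
    push Not at hcon
    have hE1 : ∀ k, 0 < k → E k = ⊥ := by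
      intro k hk
      induction k, hk using Nat.le_induction with
      | base => exact (Submodule.eq_bot_iff _).2 hcon
      | succ k hk ih =>
        rw [hE.gen k hk, Submodule.span_eq_bot]
        rintro _ ⟨p, q, -, hq, rfl⟩
        rw [hcon q hq, mul_zero]
    obtain ⟨α, hα, hgr⟩ := hE.grow
    have h0 : Tendsto (fun k : ℕ => (Module.finrank ℂ (E k) : ℝ) / (k : ℝ) ^ M) atTop (𝓝 0) := by
      refine Tendsto.congr' ?_ tendsto_const_nhds
      filter_upwards [eventually_gt_atTop 0] with k hk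
      rw [hE1 k hk]
      simp
    exact hα.ne' (tendsto_nhds_unique hgr h0)
  -- the elements of `U` are in the field
  have hCL : ∀ k, ∀ p ∈ E k, ι (Polynomial.C p) ∈ L := by
    intro k p hp
    have h1 : Polynomial.C p * Polynomial.X ^ 0 ∈ BB F :=
      VV_le_BB k (mono_mem (by rw [hF.zero]; exact hp))
    have h2 := hBL ⟨_, h1⟩
    simpa using h2
  have hXL : ι Polynomial.X ∈ L := by
    have h1 : Polynomial.C g * Polynomial.X ^ 1 ∈ BB F :=
      VV_le_BB 1 (mono_mem (by rw [hF.one]; exact hg1))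
    have h2 := hBL ⟨_, h1⟩
    have h3 := hCL 1 g hg1
    have h4 : ι Polynomial.X = ι (Polynomial.C g * Polynomial.X ^ 1) / ι (Polynomial.C g) := by
      rw [pow_one, map_mul]
      have : ι (Polynomial.C g) ≠ 0 := by
        rw [Ne, map_eq_zero_iff ι hι, Polynomial.C_eq_zero]
        exact hg0
      rw [mul_div_cancel_left₀ _ this]
    rw [h4]
    exact div_mem h2 h3
  have hGL : ∀ k, ∀ p ∈ VV G k, ι p ∈ L := by
    intro k p hp
    rw [Polynomial.as_sum_range_C_mul_X_pow p, map_sum]
    refine sum_mem fun l _ => ?_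
    rw [map_mul, map_pow]
    exact mul_mem (hCL k _ (FF.le hG k l (hp l))) (pow_mem hXL l)
  let V : ℕ → Submodule ℂ L := fun k => (VB F k).map e.toLinearMap
  let U : ℕ → Submodule ℂ L := fun k => ((VV G k).map ι.toLinearMap).comap L.val.toLinearMap
  have hLinj : Function.Injective L.val.toLinearMap := Subtype.val_injective
  have hmapU : ∀ k, (U k).map L.val.toLinearMap = (VV G k).map ι.toLinearMap := by
    intro k
    rw [Submodule.map_comap_eq_self]
    rintro _ ⟨p, hp, rfl⟩
    exact ⟨⟨ι p, hGL k p hp⟩, rfl⟩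
  have hrkU : ∀ k, Module.finrank ℂ (U k) = Module.finrank ℂ (VV G k) := by
    intro k
    rw [(Submodule.equivMapOfInjective _ hLinj (U k)).finrank_eq, hmapU k]
    exact ((Submodule.equivMapOfInjective _ hι (VV G k)).finrank_eq).symm
  have hfdU : ∀ k, FiniteDimensional ℂ (U k) := by
    intro k
    have h1 := (finrank_VV hE hG k).1
    have h2 : FiniteDimensional ℂ ((VV G k).map ι.toLinearMap) := by infer_instance
    rw [← hmapU k] at h2
    exact (Submodule.equivMapOfInjective _ hLinj (U k)).symm.finiteDimensional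
  have hrkV : ∀ k, Module.finrank ℂ (V k) = Module.finrank ℂ (VV F k) := by
    intro k
    rw [← finrank_VB]
    exact ((Submodule.equivMapOfInjective _ he (VB F k)).finrank_eq).symm
  have hxG : Polynomial.C f * Polynomial.X ^ l₀ ∈ VV G k₀ := mono_mem hf
  let x : L := ⟨ι (Polynomial.C f * Polynomial.X ^ l₀), hGL k₀ _ hxG⟩
  have hxD : x ∉ e.range := by
    rintro ⟨b, hb⟩
    have h1 : ι b = ι (Polynomial.C f * Polynomial.X ^ l₀) := congrArg Subtype.val hb
    have h2 := hι h1
    refine hf' (coeff_of_BB hE hF hI (FF.le hG k₀ l₀ hf) ?_)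
    rw [← h2]
    exact b.2
  -- integrally closed
  have hclosed : ∀ y : L, IsIntegral e.range y → y ∈ e.range := by
    intro y hy
    letI : Algebra (BB F) L := e.toRingHom.toAlgebra
    have hfs : FaithfulSMul (BB F) L := (faithfulSMul_iff_algebraMap_injective (BB F) L).2 he
    have hfr : IsFractionRing (BB F) L := by
      refine IsFractionRing.of_field (BB F) L ?_
      intro z
      obtain ⟨u, v, -, hz⟩ := (hLdiv z).1 z.2
      refine ⟨u, v, ?_⟩
      apply Subtype.ext
      exact hz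
    have hic' : IsIntegrallyClosed (BB F) := hic
    let eq : BB F ≃ₐ[ℂ] e.range := AlgEquiv.ofInjective e he
    have h1 : IsIntegral (BB F) y := by
      refine IsIntegral.map_of_comp_eq (eq.symm : e.range →+* BB F) (RingHom.id L) ?_ hy
      ext z
      obtain ⟨b, rfl⟩ := eq.surjective z
      simp only [RingHom.comp_apply, RingHom.coe_coe, AlgEquiv.symm_apply_apply, RingHom.id_apply]
      rfl
    obtain ⟨b, hb⟩ := IsIntegrallyClosed.isIntegral_iff.1 h1
    exact ⟨b, hb⟩
  obtain ⟨c, hc, hev⟩ := hRGA L e.range V (M + 1) (fun i => e (a i)) (by omega)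
    (by
      rintro k _ ⟨b, -, rfl⟩
      exact ⟨b, rfl⟩)
    (by
      intro k
      have := fd_VB hE hF k
      show FiniteDimensional ℂ ((VB F k).map e.toLinearMap)
      infer_instance)
    (LinearMap.iSupIndep_map e.toLinearMap he (VB_indep hF hI))
    (by
      show (⨆ k, (VB F k).map e.toLinearMap) = _
      rw [← Submodule.map_iSup, VB_top hE hF, Submodule.map_top]
      rfl)
    (by
      show (VB F 0).map e.toLinearMap = _
      rw [VB_zero hE hF, Submodule.map_span, Set.image_singleton]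
      congr 2
      exact map_one e)
    (by
      rintro k k' _ _ ⟨b, hb, rfl⟩ ⟨b', hb', rfl⟩
      exact ⟨b * b', VB_mul hF hb hb', map_mul e b b'⟩)
    (by
      have h1 := (BB_ft hE hF hgen).out
      rw [← Algebra.map_top]
      exact h1.map e)
    (by
      intro y
      obtain ⟨u, v, hv, hy⟩ := (hLdiv y).1 y.2
      refine ⟨e u, e v, ⟨u, rfl⟩, ⟨v, rfl⟩, ?_, ?_⟩
      · intro h
        rw [map_eq_zero_iff e he] at h
        rw [h] at hv
        exact hv rfl
      · apply Subtype.ext
        exact hy)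
    hclosed
    (fun i => ⟨a i, ha1 i, rfl⟩)
    (ha2.map' he)
    (by
      rintro _ ⟨b, rfl⟩
      have hle : ∀ z : Algebra.adjoin ℂ (Set.range a), e z ∈
          Algebra.adjoin ℂ (Set.range fun i => e (a i)) := by
        intro z
        have h1 : (Algebra.adjoin ℂ (Set.range a)).map e =
            Algebra.adjoin ℂ (Set.range fun i => e (a i)) := by
          rw [AlgHom.map_adjoin, ← Set.range_comp]
          rfl
        rw [← h1]
        exact ⟨z, z.2, rfl⟩
      let φ : Algebra.adjoin ℂ (Set.range a) →ₐ[ℂ]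
          Algebra.adjoin ℂ (Set.range fun i => e (a i)) :=
        (e.comp (Algebra.adjoin ℂ (Set.range a)).val).codRestrict _ hle
      exact IsIntegral.map_of_comp_eq (R := Algebra.adjoin ℂ (Set.range a)) (S := BB F)
        (T := Algebra.adjoin ℂ (Set.range fun i => e (a i))) (U := L)
        φ.toRingHom e.toRingHom (RingHom.ext fun z => rfl) (ha3 b))
    x k₀ hk₀ hxD U hfdU
    (by
      rintro k _ ⟨b, hb, rfl⟩
      exact ⟨b, VV_mono hFG k hb, rfl⟩)
    (by
      rintro i j _ ⟨b, hb, rfl⟩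
      refine ⟨(Polynomial.C f * Polynomial.X ^ l₀) ^ i * (b : Polynomial A),
        VV_mul hG (VV_pow hE hG hxG i) (VV_mono hFG j hb), ?_⟩
      have h1 : ι ((Polynomial.C f * Polynomial.X ^ l₀) ^ i * (b : Polynomial A)) =
          ((x ^ i * e b : L) : K) := by
        rw [map_mul, map_pow]
        rfl
      exact h1)
  refine ⟨c, hc, ?_⟩
  filter_upwards [hev] with k hk
  rw [hrkU, hrkV, (finrank_VV hE hG k).2, (finrank_VV hE hF k).2] at hk
  linarith

end Pool.Agent.Helper92.KP
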