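import Pool.Agent.Helper68.KP.StR

/-!
# Project KP, MODULE RIG (rigidity), part A: the bigraded algebra of a filtration
-/

set_option autoImplicit false

namespace Pool.Agent.Helper92.KP

open Pool.Agent.Helper52.KP Pool.Agent.Helper68.KP Filter Topology

section

variable {A : Type} [CommRing A] [Algebra ℂ A]

/-- the graded piece `⊕_l F k l X^l` -/
def VV (F : ℕ → ℕ → Submodule ℂ A) (k : ℕ) : Submodule ℂ (Polynomial A) where
  carrier := {p | ∀ l, p.coeff l ∈ F k l}
  add_mem' := by
    intro p q hp hq l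
    rw [Polynomial.coeff_add]
    exact add_mem (hp l) (hq l)
  zero_mem' := by
    intro l
    rw [Polynomial.coeff_zero]
    exact zero_mem _
  smul_mem' := by
    intro c p hp l
    rw [Polynomial.coeff_smul]
    exact Submodule.smul_mem _ _ (hp l)

theorem mem_VV {F : ℕ → ℕ → Submodule ℂ A} {k : ℕ} {p : Polynomial A} :
    p ∈ VV F k ↔ ∀ l, p.coeff l ∈ F k l := Iff.rfl

theorem VV_mono {F G : ℕ → ℕ → Submodule ℂ A} (h : ∀ k l, F k l ≤ G k l) (k : ℕ) :
    VV F k ≤ VV G k := fun _ hp l => h k l (hp l)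

theorem mono_mem {F : ℕ → ℕ → Submodule ℂ A} {k l : ℕ} {f : A} (hf : f ∈ F k l) :
    Polynomial.C f * Polynomial.X ^ l ∈ VV F k := by
  intro j
  rw [Polynomial.coeff_C_mul_X_pow]
  split_ifs with h
  · rw [h]; exact hf
  · exact zero_mem _

variable {E : ℕ → Submodule ℂ A} {M Λ : ℕ} {F : ℕ → ℕ → Submodule ℂ A}

theorem FF.le (hF : FF E Λ F) (k l : ℕ) : F k l ≤ E k := by
  induction l with
  | zero => rw [hF.zero]
  | succ l ih => exact (hF.anti k l).trans ih

theorem FF.anti' (hF : FF E Λ F) (k : ℕ) {l l' : ℕ} (h : l ≤ l') : F k l' ≤ F k l := by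
  induction l', h using Nat.le_induction with
  | base => exact le_rfl
  | succ l' _ ih => exact (hF.anti k l').trans ih

theorem FF.diag (hE : SG E M) (hF : FF E Λ F) (k : ℕ) : F k k = E k := by
  refine le_antisymm (FF.le hF k k) ?_
  induction k with
  | zero => rw [hF.zero]
  | succ k ih =>
    rcases Nat.eq_zero_or_pos k with hk | hk
    · subst hk
      exact hF.one.ge
    · rw [hE.gen k hk, Submodule.span_le]
      rintro _ ⟨f, f', hf, hf', rfl⟩
      exact hF.mul k k 1 1 f f' (ih hf) (hF.one.ge hf')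

theorem FF.full (hE : SG E M) (hF : FF E Λ F) {k l : ℕ} (h : l ≤ k) : F k l = E k :=
  le_antisymm (FF.le hF k l) ((FF.diag hE hF k).ge.trans (FF.anti' hF k h))

theorem VV_mul (hF : FF E Λ F) {k k' : ℕ} {p q : Polynomial A} (hp : p ∈ VV F k)
    (hq : q ∈ VV F k') : p * q ∈ VV F (k + k') := by
  intro l
  rw [Polynomial.coeff_mul]
  refine Submodule.sum_mem _ ?_
  rintro ⟨i, j⟩ hij
  have hij' : i + j = l := by simpa using hij
  have := hF.mul k i k' j _ _ (hp i) (hq j)
  rwa [hij'] at this

theorem VV_one (hE : SG E M) (hF : FF E Λ F) : (1 : Polynomial A) ∈ VV F 0 := by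
  have h1 : (1 : A) ∈ F 0 0 := by
    rw [hF.zero, hE.zero]
    exact Submodule.subset_span rfl
  have := mono_mem (F := F) (k := 0) (l := 0) h1
  simpa using this

theorem VV_pow (hE : SG E M) (hF : FF E Λ F) {k : ℕ} {p : Polynomial A} (hp : p ∈ VV F k)
    (i : ℕ) : p ^ i ∈ VV F (i * k) := by
  induction i with
  | zero => rw [pow_zero, zero_mul]; exact VV_one hE hF
  | succ i ih =>
    rw [pow_succ, Nat.succ_mul]
    exact VV_mul hF ih hp

theorem VV_zero (hE : SG E M) (hF : FF E Λ F) : VV F 0 = Submodule.span ℂ {1} := by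
  refine le_antisymm ?_ ?_
  · intro p hp
    have h0 : p.coeff 0 ∈ Submodule.span ℂ {(1 : A)} := by
      rw [← hE.zero, ← hF.zero]; exact hp 0
    obtain ⟨c, hc⟩ := Submodule.mem_span_singleton.1 h0
    rw [Submodule.mem_span_singleton]
    refine ⟨c, ?_⟩
    ext l
    rw [Polynomial.coeff_smul, Polynomial.coeff_one]
    rcases Nat.eq_zero_or_pos l with hl | hl
    · subst hl
      rw [if_pos rfl, hc]
    · rw [if_neg hl.ne', smul_zero]
      have := hp l
      rw [hF.bot 0 l (by simpa using hl)] at this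
      exact ((Submodule.mem_bot ℂ).1 this).symm
  · rw [Submodule.span_le, Set.singleton_subset_iff]
    exact VV_one hE hF

/-- `VV F (k+1)` is spanned by products -/
theorem VV_gen (hE : SG E M) (hF : FF E Λ F)
    (hgen : ∀ k l, 0 < k → F (k + 1) l = Submodule.span ℂ
      {b | ∃ i j f f', i + j = l ∧ f ∈ F k i ∧ f' ∈ F 1 j ∧ b = f * f'}) (k : ℕ) :
    VV F (k + 1) = Submodule.span ℂ
      {b | ∃ p q, p ∈ VV F k ∧ q ∈ VV F 1 ∧ b = p * q} := by
  refine le_antisymm ?_ ?_
  · intro p hp
    rcases Nat.eq_zero_or_pos k with hk | hk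
    · subst hk
      exact Submodule.subset_span ⟨1, p, VV_one hE hF, hp, (one_mul p).symm⟩
    · rw [Polynomial.as_sum_range_C_mul_X_pow p]
      refine Submodule.sum_mem _ fun l _ => ?_
      have h := hp l
      rw [hgen k l hk] at h
      refine Submodule.span_induction (p := fun x _ => Polynomial.C x * Polynomial.X ^ l ∈
        Submodule.span ℂ {b | ∃ p q, p ∈ VV F k ∧ q ∈ VV F 1 ∧ b = p * q}) ?_ ?_ ?_ ?_ h
      · rintro _ ⟨i, j, f, f', hij, hf, hf', rfl⟩
        refine Submodule.subset_span ⟨_, _, mono_mem hf, mono_mem hf', ?_⟩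
        rw [← hij, Polynomial.C_mul, pow_add]
        ring
      · rw [Polynomial.C_0, zero_mul]; exact zero_mem _
      · intro x y _ _ hx hy
        rw [Polynomial.C_add, add_mul]; exact add_mem hx hy
      · intro c x _ hx
        have : Polynomial.C (c • x) = c • Polynomial.C x := (Polynomial.smul_C c x).symm
        rw [this, smul_mul_assoc]
        exact Submodule.smul_mem _ _ hx
  · rw [Submodule.span_le]
    rintro _ ⟨p, q, hp, hq, rfl⟩
    exact VV_mul hF hp hq

/-- the coefficients as linear maps -/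
noncomputable def co (l : ℕ) : Polynomial A →ₗ[ℂ] A :=
  (Polynomial.lcoeff A l).restrictScalars ℂ

theorem co_apply (l : ℕ) (p : Polynomial A) : co l p = p.coeff l := rfl

theorem VV_le_comap (hF : FF E Λ F) (k l : ℕ) : VV F k ≤ Submodule.comap (co l) (E k) :=
  fun _ hp => FF.le hF k l (hp l)

/-- independence from independence of coefficients -/
theorem indep_of {N : Type*} [AddCommGroup N] [Module ℂ N] (c : ℕ → N →ₗ[ℂ] A)
    (hc : ∀ x : N, (∀ l, c l x = 0) → x = 0) (hE : iSupIndep E) (V : ℕ → Submodule ℂ N)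
    (hV : ∀ k l, V k ≤ Submodule.comap (c l) (E k)) : iSupIndep V := by
  intro k
  rw [Submodule.disjoint_def]
  intro x hx hx'
  refine hc x fun l => ?_
  have h1 : c l x ∈ E k := hV k l hx
  have h2 : (⨆ (j : ℕ) (_ : j ≠ k), V j) ≤ Submodule.comap (c l) (⨆ (j : ℕ) (_ : j ≠ k), E j) := by
    refine iSup₂_le fun j hj => ?_
    exact (hV j l).trans (Submodule.comap_mono (le_iSup₂_of_le j hj le_rfl))
  exact (Submodule.disjoint_def.1 (hE k)) _ h1 (h2 hx')

/-- the algebra -/
noncomputable def BB (F : ℕ → ℕ → Submodule ℂ A) : Subalgebra ℂ (Polynomial A) :=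
  Algebra.adjoin ℂ {b : Polynomial A |
    ∃ k l f, f ∈ F k l ∧ b = Polynomial.C f * Polynomial.X ^ l}

theorem VV_le_BB (k : ℕ) : VV F k ≤ (BB F).toSubmodule := by
  intro p hp
  rw [Polynomial.as_sum_range_C_mul_X_pow p]
  refine Submodule.sum_mem _ fun l _ => ?_
  exact Algebra.subset_adjoin ⟨k, l, _, hp l, rfl⟩

theorem BB_eq (hE : SG E M) (hF : FF E Λ F) : (BB F).toSubmodule = ⨆ k, VV F k := by
  refine le_antisymm ?_ (iSup_le fun k => VV_le_BB k)
  intro p hp
  refine Algebra.adjoin_induction (p := fun x _ => x ∈ ⨆ k, VV F k) ?_ ?_ ?_ ?_ hp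
  · rintro _ ⟨k, l, f, hf, rfl⟩
    exact Submodule.mem_iSup_of_mem k (mono_mem hf)
  · intro c
    refine Submodule.mem_iSup_of_mem 0 ?_
    rw [Algebra.algebraMap_eq_smul_one]
    exact Submodule.smul_mem _ _ (VV_one hE hF)
  · intro x y _ _ hx hy
    exact add_mem hx hy
  · intro x y _ _ hx hy
    refine Submodule.iSup_induction (p := fun k => VV F k)
      (motive := fun x => x * y ∈ ⨆ k, VV F k) hx ?_ ?_ ?_
    · intro k x hx
      refine Submodule.iSup_induction (p := fun k => VV F k)
        (motive := fun y => x * y ∈ ⨆ k, VV F k) hy ?_ ?_ ?_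
      · intro k' y hy
        exact Submodule.mem_iSup_of_mem (k + k') (VV_mul hF hx hy)
      · rw [mul_zero]; exact zero_mem _
      · intro y y' h h'; rw [mul_add]; exact add_mem h h'
    · rw [zero_mul]; exact zero_mem _
    · intro x x' h h'; rw [add_mul]; exact add_mem h h'

/-- an element of `E k` which is a coefficient of an element of the algebra is in `F` -/
theorem coeff_of_BB (hE : SG E M) (hF : FF E Λ F) (hI : iSupIndep E) {k l : ℕ} {f : A}
    (hf : f ∈ E k) (h : Polynomial.C f * Polynomial.X ^ l ∈ BB F) : f ∈ F k l := by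
  have h1 : Polynomial.C f * Polynomial.X ^ l ∈ ⨆ k, VV F k := by
    rw [← BB_eq hE hF]; exact h
  have h2 : (⨆ j, VV F j) ≤ VV F k ⊔ ⨆ (j : ℕ) (_ : j ≠ k), VV F j := by
    refine iSup_le fun j => ?_
    rcases eq_or_ne j k with hj | hj
    · rw [hj]; exact le_sup_left
    · exact (le_iSup₂_of_le (f := fun j (_ : j ≠ k) => VV F j) j hj le_rfl).trans le_sup_right
  obtain ⟨q, hq, s, hs, hqs⟩ := Submodule.mem_sup.1 (h2 h1)
  have h3 : co l s ∈ ⨆ (j : ℕ) (_ : j ≠ k), E j := by
    have : (⨆ (j : ℕ) (_ : j ≠ k), VV F j) ≤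
        Submodule.comap (co l) (⨆ (j : ℕ) (_ : j ≠ k), E j) := by
      refine iSup₂_le fun j hj => ?_
      exact (VV_le_comap hF j l).trans (Submodule.comap_mono (le_iSup₂_of_le j hj le_rfl))
    exact this hs
  have h4 : q.coeff l + s.coeff l = f := by
    rw [← Polynomial.coeff_add, hqs, Polynomial.coeff_C_mul_X_pow, if_pos rfl]
  have h5 : co l s ∈ E k := by
    have : co l s = f - q.coeff l := by
      rw [co_apply, ← h4]; ring
    rw [this]
    exact sub_mem hf (FF.le hF k l (hq l))
  have h6 : co l s = 0 := (Submodule.disjoint_def.1 (hI k)) _ h5 h3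
  rw [co_apply] at h6
  rw [h6, add_zero] at h4
  rw [← h4]
  exact hq l

/-- dimension of the graded pieces -/
theorem finrank_VV (hE : SG E M) (hF : FF E Λ F) (k : ℕ) :
    FiniteDimensional ℂ (VV F k) ∧
    (Module.finrank ℂ (VV F k) : ℝ) = Module.finrank ℂ (E k) + wA F k := by
  have hfdE := hE.fd k
  have hfd : ∀ l, FiniteDimensional ℂ (F k l) := fun l =>
    Submodule.finiteDimensional_of_le (FF.le hF k l)
  -- the equivalence with a finite product
  let e : VV F k ≃ₗ[ℂ] (∀ l : Fin (Λ * k + 1), F k l) :=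
    { toFun := fun p l => ⟨(p : Polynomial A).coeff l, p.2 l⟩
      map_add' := by
        intro p q
        ext l
        simp
      map_smul' := by
        intro c p
        ext l
        simp
      invFun := fun g => ⟨∑ l : Fin (Λ * k + 1), Polynomial.C (g l : A) * Polynomial.X ^ (l : ℕ),
        Submodule.sum_mem _ fun l _ => mono_mem (g l).2⟩
      left_inv := by
        intro p
        apply Subtype.ext
        apply Polynomial.ext
        intro n
        simp only [Polynomial.finsetSum_coeff, Polynomial.coeff_C_mul_X_pow]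
        rcases lt_or_ge n (Λ * k + 1) with hn | hn
        · rw [Finset.sum_eq_single (⟨n, hn⟩ : Fin (Λ * k + 1))]
          · simp
          · intro b _ hb
            rw [if_neg]
            intro h
            exact hb (Fin.ext h.symm)
          · intro h
            exact absurd (Finset.mem_univ _) h
        · have h1 := p.2 n
          rw [hF.bot k n (by omega)] at h1
          rw [(Submodule.mem_bot ℂ).1 h1]
          refine Finset.sum_eq_zero fun b _ => ?_
          rw [if_neg]
          intro h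
          have := b.2
          omega
      right_inv := by
        intro g
        ext l
        simp only [Polynomial.finsetSum_coeff, Polynomial.coeff_C_mul_X_pow]
        rw [Finset.sum_eq_single l]
        · simp
        · intro b _ hb
          rw [if_neg]
          intro h
          exact hb (Fin.ext h.symm)
        · intro h
          exact absurd (Finset.mem_univ _) h }
  refine ⟨e.symm.finiteDimensional, ?_⟩
  have h1 : Module.finrank ℂ (VV F k) = ∑ l : Fin (Λ * k + 1), Module.finrank ℂ (F k l) := by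
    rw [e.finrank_eq, Module.finrank_pi_fintype]
  have h2 : wA F k = ∑ l ∈ Finset.range (Λ * k), (Module.finrank ℂ (F k (l + 1)) : ℝ) := by
    unfold wA
    refine finsum_eq_sum_of_support_subset _ ?_
    intro l hl
    rw [Finset.coe_range, Set.mem_Iio]
    by_contra hcon
    refine hl ?_
    show ((Module.finrank ℂ (F k (l + 1)) : ℕ) : ℝ) = 0
    rw [hF.bot k (l + 1) (by omega)]
    simp
  rw [h1, h2, Fin.sum_univ_eq_sum_range (fun l => Module.finrank ℂ (F k l)) (Λ * k + 1),
    Finset.sum_range_succ', hF.zero]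
  push_cast
  ring

/-- growth of the graded pieces -/
theorem growth (hE : SG E M) (hF : FF E Λ F) :
    ∃ c C : ℝ, 0 < c ∧ ∀ᶠ k : ℕ in atTop, c * (k : ℝ) ^ (M + 1) ≤ Module.finrank ℂ (VV F k) ∧
    (Module.finrank ℂ (VV F k) : ℝ) ≤ C * (k : ℝ) ^ (M + 1) := by
  obtain ⟨a, ha, hgr⟩ := hE.grow
  have h1 : ∀ᶠ k : ℕ in atTop,
      (Module.finrank ℂ (E k) : ℝ) / (k : ℝ) ^ M < 2 * a :=
    hgr.eventually_lt_const (by linarith)
  have h2 : ∀ᶠ k : ℕ in atTop,
      a / 2 < (Module.finrank ℂ (E k) : ℝ) / (k : ℝ) ^ M :=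
    hgr.eventually_const_lt (by linarith)
  refine ⟨a / 2, (Λ + 1) * (2 * a), by positivity, ?_⟩
  filter_upwards [h1, h2, eventually_gt_atTop 0] with k hk1 hk2 hk0
  have hkpos : (0 : ℝ) < (k : ℝ) := by exact_mod_cast hk0
  have hk' : (0 : ℝ) < (k : ℝ) ^ M := by positivity
  rw [div_lt_iff₀ hk'] at hk1
  rw [lt_div_iff₀ hk'] at hk2
  have hw : wA F k = ∑ l ∈ Finset.range (Λ * k), (Module.finrank ℂ (F k (l + 1)) : ℝ) := by
    unfold wA
    refine finsum_eq_sum_of_support_subset _ ?_
    intro l hl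
    rw [Finset.coe_range, Set.mem_Iio]
    by_contra hcon
    refine hl ?_
    show ((Module.finrank ℂ (F k (l + 1)) : ℕ) : ℝ) = 0
    rw [hF.bot k (l + 1) (by omega)]
    simp
  have hle : ∀ l, (Module.finrank ℂ (F k l) : ℝ) ≤ Module.finrank ℂ (E k) := by
    intro l
    have := hE.fd k
    exact_mod_cast Submodule.finrank_mono (FF.le hF k l)
  have hup : wA F k ≤ (Λ * k : ℕ) * (Module.finrank ℂ (E k) : ℝ) := by
    rw [hw]
    calc ∑ l ∈ Finset.range (Λ * k), (Module.finrank ℂ (F k (l + 1)) : ℝ)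
        ≤ ∑ l ∈ Finset.range (Λ * k), (Module.finrank ℂ (E k) : ℝ) :=
          Finset.sum_le_sum fun l _ => hle (l + 1)
      _ = (Λ * k : ℕ) * (Module.finrank ℂ (E k) : ℝ) := by
          rw [Finset.sum_const, Finset.card_range, nsmul_eq_mul]
  have hkk : (k : ℝ) ^ (M + 1) = (k : ℝ) ^ M * k := pow_succ _ _
  have hk1' : (1 : ℝ) ≤ k := by exact_mod_cast hk0
  have hE0 : (0 : ℝ) ≤ (Module.finrank ℂ (E k) : ℝ) := by positivity
  rw [(finrank_VV hE hF k).2]
  constructor
  · -- lower bound
    have hsub : ∑ l ∈ Finset.range k, (Module.finrank ℂ (F k (l + 1)) : ℝ) ≤ wA F k := by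
      by_cases hzero : (Module.finrank ℂ (E k)) = 0
      · have : ∑ l ∈ Finset.range k, (Module.finrank ℂ (F k (l + 1)) : ℝ) ≤ 0 := by
          refine Finset.sum_nonpos fun l _ => ?_
          have := hle (l + 1)
          rw [hzero] at this
          simpa using this
        refine this.trans ?_
        rw [hw]
        positivity
      · rw [hw]
        refine Finset.sum_le_sum_of_subset_of_nonneg ?_ fun _ _ _ => by positivity
        intro l hl
        rw [Finset.mem_range] at hl ⊢
        by_contra hcon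
        have h3 : F k k = ⊥ := by
          refine hF.bot k k ?_
          omega
        rw [FF.diag hE hF] at h3
        rw [h3] at hzero
        simp at hzero
    have hfull : ∑ l ∈ Finset.range k, (Module.finrank ℂ (F k (l + 1)) : ℝ) =
        k * (Module.finrank ℂ (E k) : ℝ) := by
      rw [Finset.sum_congr rfl (g := fun _ => (Module.finrank ℂ (E k) : ℝ)), Finset.sum_const,
        Finset.card_range, nsmul_eq_mul]
      intro l hl
      rw [Finset.mem_range] at hl
      rw [FF.full hE hF (show l + 1 ≤ k by omega)]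
    rw [hfull] at hsub
    have : a / 2 * (k : ℝ) ^ (M + 1) ≤ k * (Module.finrank ℂ (E k) : ℝ) := by
      rw [hkk]
      calc a / 2 * ((k : ℝ) ^ M * k) = k * (a / 2 * (k : ℝ) ^ M) := by ring
        _ ≤ k * (Module.finrank ℂ (E k) : ℝ) := mul_le_mul_of_nonneg_left hk2.le hkpos.le
    linarith
  · have h3 : (Module.finrank ℂ (E k) : ℝ) + wA F k ≤
        (1 + (Λ * k : ℕ)) * (Module.finrank ℂ (E k) : ℝ) := by
      rw [add_mul, one_mul]
      linarith
    refine h3.trans ?_
    have h4 : (1 : ℝ) + ((Λ * k : ℕ) : ℝ) ≤ (Λ + 1) * k := by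
      push_cast
      nlinarith
    calc (1 + ((Λ * k : ℕ) : ℝ)) * (Module.finrank ℂ (E k) : ℝ)
        ≤ ((Λ + 1) * k) * (2 * a * (k : ℝ) ^ M) := by
          refine mul_le_mul h4 hk1.le hE0 (by positivity)
      _ = (Λ + 1) * (2 * a) * (k : ℝ) ^ (M + 1) := by
          rw [hkk]; ring

end

end Pool.Agent.Helper92.KP
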